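import Pool.Agent.Lib.MP_8e6c5e_nt.Sieve

/-! Counting indices `n` through pairs of close indices. -/

namespace Pool.Agent.Lib.MP_8e6c5e_nt

open Finset

lemma sep (S : Finset ℕ) (f : ℕ → ℕ) (X D : ℕ) (hD : 0 < D) (hX : ∀ a ∈ S, f a ≤ X)
    (h : ∀ a ∈ S, ∀ b ∈ S, a < b → f a + D ≤ f b) : (#S : ℝ) ≤ X / D + 1 := by
  have h1 : #S ≤ #(range (X / D + 1)) := by
    refine card_le_card_of_injOn (fun a => f a / D) ?_ ?_
    · intro a ha
      simp only [coe_range, Set.mem_Iio]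
      exact Nat.lt_succ_of_le (Nat.div_le_div_right (hX a ha))
    · have key : ∀ a ∈ S, ∀ b ∈ S, a < b → f a / D < f b / D := by
        intro a ha b hb hab
        have := Nat.div_le_div_right (c := D) (h a ha b hb hab)
        rw [Nat.add_div_right _ hD] at this
        omega
      intro a ha b hb hab
      rcases lt_trichotomy a b with c | c | c
      · exact absurd hab (key a ha b hb c).ne
      · exact c
      · exact absurd hab (key b hb a ha c).ne'
  rw [card_range] at h1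
  have h2 : ((X / D : ℕ) : ℝ) ≤ X / D := Nat.cast_div_le
  have h3 : (#S : ℝ) ≤ ((X / D : ℕ) : ℝ) + 1 := by exact_mod_cast h1
  linarith

/-- Indices of `B` followed by shift `j` inside `B`, with value gap `h`. -/
def pr (B : Finset ℕ) (p : ℕ → ℕ) (j h : ℕ) : Finset ℕ :=
  B.filter fun n => n + j ∈ B ∧ p (n + j) = p n + h

lemma mem_pr {B : Finset ℕ} {p : ℕ → ℕ} {j h n : ℕ} :
    n ∈ pr B p j h ↔ n ∈ B ∧ n + j ∈ B ∧ p (n + j) = p n + h := mem_filter

lemma split (B : Finset ℕ) (p : ℕ → ℕ) (N X T H : ℕ) (hT : 0 < T) (hH : 0 < H)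
    (hN : ∀ n ∈ B, n ≤ N) (hX : ∀ n ∈ B, p n ≤ X)
    (hm : ∀ n ∈ B, ∀ m ∈ B, n < m → p n < p m) :
    (#B : ℝ) ≤ N / T + X / H + 2 +
      ∑ j ∈ Icc 1 T, (#((Icc 1 H).biUnion fun h => pr B p j h) : ℝ) := by
  classical
  set S1 := B.filter fun n => ∀ m ∈ B, n < m → n + T ≤ m with hS1
  set S2 := B.filter fun n => ∀ m ∈ B, n < m → p n + H ≤ p m with hS2
  have h1 := sep S1 id N T hT (fun a ha => hN a (mem_filter.1 ha).1)
    (fun a ha b hb hab => (mem_filter.1 ha).2 b (mem_filter.1 hb).1 hab)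
  have h2 := sep S2 p X H hH (fun a ha => hX a (mem_filter.1 ha).1)
    (fun a ha b hb hab => (mem_filter.1 ha).2 b (mem_filter.1 hb).1 hab)
  have h3 : B ⊆ (S1 ∪ S2) ∪ (Icc 1 T).biUnion fun j => (Icc 1 H).biUnion fun h => pr B p j h := by
    intro n hn
    by_cases c1 : n ∈ S1
    · exact mem_union_left _ (mem_union_left _ c1)
    by_cases c2 : n ∈ S2
    · exact mem_union_left _ (mem_union_right _ c2)
    refine mem_union_right _ ?_
    simp only [hS1, hS2, mem_filter, hn, true_and, not_forall, not_le] at c1 c2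
    obtain ⟨m1, a1, a2, a3⟩ := c1
    obtain ⟨m2, b1, b2, b3⟩ := c2
    have : ∃ m ∈ B, n < m ∧ m < n + T ∧ p m < p n + H := by
      rcases lt_or_ge m1 m2 with c | c
      · exact ⟨m1, a1, a2, a3, (hm _ a1 _ b1 c).trans b3⟩
      · exact ⟨m2, b1, b2, by omega, b3⟩
    obtain ⟨m, d1, d2, d3, d4⟩ := this
    have d5 := hm n hn m d1 d2
    have d6 : n + (m - n) = m := by omega
    refine mem_biUnion.2 ⟨m - n, mem_Icc.2 ⟨by omega, by omega⟩,
      mem_biUnion.2 ⟨p m - p n, mem_Icc.2 ⟨by omega, by omega⟩, mem_pr.2 ⟨hn, ?_, ?_⟩⟩⟩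
    · rwa [d6]
    · rw [d6]; omega
  have h4 := (card_le_card h3).trans ((card_union_le _ _).trans
    (add_le_add (card_union_le _ _) card_biUnion_le))
  have h5 : (#B : ℝ) ≤ #S1 + #S2 +
      ∑ j ∈ Icc 1 T, (#((Icc 1 H).biUnion fun h => pr B p j h) : ℝ) := by exact_mod_cast h4
  linarith

/-- Large moduli: a repeated difference vector forces the two pairs far apart. -/
lemma large (B : Finset ℕ) (p : ℕ → ℕ) (N X J q : ℕ) (hJ : 0 < J) (hq : 0 < q)
    (hN : ∀ n ∈ B, n ≤ N) (hX : ∀ n ∈ B, p n ≤ X)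
    (hm : ∀ n ∈ B, ∀ m ∈ B, n < m → p n < p m)
    (hr : ∀ j ∈ Icc 1 J, ∀ h ∈ Icc 1 J, ∀ n ∈ pr B p j h, ∀ m ∈ pr B p j h, n < m →
      2 * J * p n + q ≤ 2 * J * p m) :
    (#B : ℝ) ≤ N / J + X / J + 2 + J ^ 2 * (2 * J * X / q + 1) := by
  refine (split B p N X J J hJ hJ hN hX hm).trans (add_le_add_right ?_ _)
  have h1 : ∀ j ∈ Icc 1 J, (#((Icc 1 J).biUnion fun h => pr B p j h) : ℝ) ≤
      J * (2 * J * X / q + 1) := by
    intro j hj
    have a1 : (#((Icc 1 J).biUnion fun h => pr B p j h) : ℝ) ≤ ∑ h ∈ Icc 1 J, (#(pr B p j h) : ℝ) := by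
      exact_mod_cast card_biUnion_le
    refine a1.trans ((sum_le_card_nsmul _ _ (2 * J * X / q + 1 : ℝ) fun h hh => ?_).trans ?_)
    · have := sep (pr B p j h) (fun n => 2 * J * p n) (2 * J * X) q hq
        (fun a ha => Nat.mul_le_mul_left _ (hX a (mem_pr.1 ha).1)) (hr j hj h hh)
      push_cast at this
      exact this
    · rw [Nat.card_Icc, Nat.add_sub_cancel, nsmul_eq_mul]
  refine (sum_le_card_nsmul _ _ _ h1).trans (le_of_eq ?_)
  simp only [Nat.card_Icc, Nat.add_sub_cancel, nsmul_eq_mul]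
  ring

/-- Small moduli: the class of the first prime and the shift fix the class of the gap. -/
lemma small : ∃ C : ℝ, 0 < C ∧ ∀ (B : Finset ℕ) (p : ℕ → ℕ) (N X T H q : ℕ) (y lam : ℝ),
    0 < T → 0 < H → 0 < q → 4 ≤ y → 0 < lam → (∀ n ∈ B, n ≤ N) → (∀ n ∈ B, p n ≤ X) →
    (∀ n ∈ B, ∀ m ∈ B, n < m → p n < p m) → (∀ n ∈ B, (p n).Prime) →
    (∀ n ∈ B, ∀ m ∈ B, n ≡ m [MOD q] ↔ p n ≡ p m [MOD q]) →
    (#B : ℝ) ≤ N / T + X / H + 2 + T * (y + 1 + C * (X + 1) * gg q ^ 2 / Real.log y ^ 2 *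
      (lam * (H / q + 1) + Real.exp 8 * H / lam) + (H + q) * (Real.exp 144 * y ^ 240)) := by
  classical
  obtain ⟨C, hC, hs⟩ := pair_sieve
  refine ⟨C, hC, ?_⟩
  intro B p N X T H q y lam hT hH hq hy hl hN hX hm hp hb
  refine (split B p N X T H hT hH hN hX hm).trans (add_le_add_right ?_ _)
  have hq' : (0:ℝ) < q := by positivity
  have hinj : Set.InjOn p B := by
    intro a ha b hb' hab
    rcases lt_trichotomy a b with c | c | c
    · exact absurd hab (hm a ha b hb' c).ne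
    · exact c
    · exact absurd hab (hm b hb' a ha c).ne'
  refine (sum_le_card_nsmul _ _ _ fun j hj => ?_).trans (le_of_eq (by
    rw [Nat.card_Icc, Nat.add_sub_cancel, nsmul_eq_mul]))
  set Hs : ℕ → Finset ℕ := fun a => (Icc 1 H).filter fun h => ∃ n ∈ pr B p j h, p n ≡ a [MOD q]
    with hHs
  set W : ℕ → ℕ → Finset ℕ := fun a h => (pr B p j h).filter fun n => p n ≡ a [MOD q] ∧ y < p n
    with hW
  set S0 := B.filter fun n => (p n : ℝ) ≤ y with hS0
  have h0 : (#S0 : ℝ) ≤ y + 1 := by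
    have := sep S0 p ⌊y⌋₊ 1 one_pos (fun a ha => Nat.le_floor (mem_filter.1 ha).2)
      (fun a ha b hb' hab => hm a (mem_filter.1 ha).1 b (mem_filter.1 hb').1 hab)
    have h2 := Nat.floor_le (by linarith : 0 ≤ y)
    simp only [Nat.cast_one, div_one] at this
    linarith
  have h1 : ((Icc 1 H).biUnion fun h => pr B p j h) ⊆
      S0 ∪ (range q).biUnion fun a => (Hs a).biUnion fun h => W a h := by
    intro n hn
    obtain ⟨h, a1, a2⟩ := mem_biUnion.1 hn
    by_cases c : (p n : ℝ) ≤ y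
    · exact mem_union_left _ (mem_filter.2 ⟨(mem_pr.1 a2).1, c⟩)
    · have e : p n ≡ p n % q [MOD q] := (Nat.mod_modEq _ _).symm
      exact mem_union_right _ (mem_biUnion.2 ⟨p n % q, mem_range.2 (Nat.mod_lt _ hq),
        mem_biUnion.2 ⟨h, mem_filter.2 ⟨a1, n, a2, e⟩, mem_filter.2 ⟨a2, e, not_le.1 c⟩⟩⟩)
  have h2 : ∀ a, (#(Hs a) : ℝ) ≤ H / q + 1 := by
    intro a
    refine sep (Hs a) id H q hq (fun h hh => (mem_Icc.1 (mem_filter.1 hh).1).2) ?_
    intro h hh h' hh' hlt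
    obtain ⟨-, n, a1, a2⟩ := mem_filter.1 hh
    obtain ⟨-, m, b1, b2⟩ := mem_filter.1 hh'
    obtain ⟨a3, a4, a5⟩ := mem_pr.1 a1
    obtain ⟨b3, b4, b5⟩ := mem_pr.1 b1
    have e1 : p n ≡ p m [MOD q] := a2.trans b2.symm
    have e2 := (hb _ a4 _ b4).1 (((hb _ a3 _ b3).2 e1).add_right j)
    rw [a5, b5] at e2
    have e3 : h ≡ h' [MOD q] := Nat.ModEq.add_left_cancel e1 e2
    have e4 := Nat.le_of_dvd (by omega) ((Nat.modEq_iff_dvd' hlt.le).1 e3)
    simp only [id]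
    omega
  have h3 : ∀ a, ∀ h ∈ Hs a, (#(W a h) : ℝ) ≤
      C * ((X + 1) / q) * gg q ^ 2 / Real.log y ^ 2 * gg h + Real.exp 144 * y ^ 240 := by
    intro a h hh
    have hh1 := (mem_Icc.1 (mem_filter.1 hh).1).1
    have := hs (X + 1) q a h y hq hh1 hy ((W a h).image p) (by
      intro x hx
      obtain ⟨n, a1, rfl⟩ := mem_image.1 hx
      obtain ⟨a2, a3, a4⟩ := mem_filter.1 a1
      obtain ⟨a5, a6, a7⟩ := mem_pr.1 a2
      exact ⟨Nat.lt_succ_of_le (hX n a5), a3, a4, hp n a5, a7 ▸ hp _ a6⟩)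
    rw [card_image_of_injOn (hinj.mono fun n hn =>
      (mem_pr.1 (mem_filter.1 (mem_coe.1 hn)).1).1)] at this
    push_cast at this
    refine this.trans (le_of_eq (by ring))
  have h4 : ∀ a ∈ range q, (#((Hs a).biUnion fun h => W a h) : ℝ) ≤
      C * ((X + 1) / q) * gg q ^ 2 / Real.log y ^ 2 * (lam * (H / q + 1) + Real.exp 8 * H / lam)
        + (H / q + 1) * (Real.exp 144 * y ^ 240) := by
    intro a _
    have a1 : (#((Hs a).biUnion fun h => W a h) : ℝ) ≤ ∑ h ∈ Hs a, (#(W a h) : ℝ) := by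
      exact_mod_cast card_biUnion_le
    refine a1.trans ((sum_le_sum (h3 a)).trans ?_)
    rw [sum_add_distrib, ← mul_sum, sum_const, nsmul_eq_mul]
    have a2 := gg_sum H (Hs a) (filter_subset _ _) hl
    have a3 := h2 a
    have a4 : 0 < y := by linarith
    gcongr
    refine a2.trans ?_
    gcongr
  have h5 := (card_le_card h1).trans ((card_union_le _ _).trans (add_le_add_right card_biUnion_le _))
  have h6 : (#((Icc 1 H).biUnion fun h => pr B p j h) : ℝ) ≤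
      #S0 + ∑ a ∈ range q, (#((Hs a).biUnion fun h => W a h) : ℝ) := by exact_mod_cast h5
  have h7 := sum_le_card_nsmul _ _ _ h4
  rw [card_range, nsmul_eq_mul] at h7
  refine h6.trans ((add_le_add h0 h7).trans (le_of_eq ?_))
  field_simp
  ring

end Pool.Agent.Lib.MP_8e6c5e_nt
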