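import Pool.Agent.Lib.MP_8e6c5e_nt.Main

/-! The six numbers built from `n` and the `n`-th prime are rarely divisible by a given modulus. -/

namespace Pool.Agent.Lib.MP_8e6c5e_nt

open Finset Filter

lemma lin_b {q : ℕ} {e : ℤ} (he : e = 1 ∨ e = -1) (B : Finset ℕ)
    (hB : ∀ n ∈ B, (q:ℤ) ∣ pp n - e * n) :
    ∀ n ∈ B, ∀ m ∈ B, n ≡ m [MOD q] ↔ pp n ≡ pp m [MOD q] := by
  intro n hn m hm
  rw [Nat.modEq_iff_dvd, Nat.modEq_iff_dvd]
  obtain ⟨a, ha⟩ := hB n hn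
  obtain ⟨b, hb⟩ := hB m hm
  constructor
  · rintro ⟨c, hc⟩
    exact ⟨b - a + e * c, by linear_combination hb - ha + e * hc⟩
  · rintro ⟨c, hc⟩
    refine ⟨e * (c - b + a), ?_⟩
    rcases he with rfl | rfl
    · linear_combination hc - hb + ha
    · linear_combination -hc + hb - ha

lemma lin_r {q : ℕ} {e : ℤ} (he : e = 1 ∨ e = -1) (B : Finset ℕ) (h2 : ∀ n ∈ B, 2 ≤ n)
    (hB : ∀ n ∈ B, (q:ℤ) ∣ pp n - e * n) :
    ∀ J, ∀ j ∈ Icc 1 J, ∀ h ∈ Icc 1 J, ∀ n ∈ pr B pp j h, ∀ m ∈ pr B pp j h, n < m →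
      2 * J * pp n + q ≤ 2 * J * pp m := by
  intro J j hj h hh n hn m _ hnm
  obtain ⟨a1, a2, a3⟩ := mem_pr.1 hn
  obtain ⟨j1, j2⟩ := mem_Icc.1 hj
  obtain ⟨k1, k2⟩ := mem_Icc.1 hh
  have b1 := pp_gap (h2 n a1) j
  have b2 := dvd_sub (hB _ a2) (hB _ a1)
  rw [a3] at b1 b2
  have b3 : ((pp n + h : ℕ) : ℤ) - e * ((n + j : ℕ) : ℤ) - (pp n - e * n) = h - e * j := by
    push_cast; ring
  rw [b3] at b2
  have b4 : q ≤ 2 * J := by
    have := Int.le_of_dvd (by rcases he with rfl | rfl <;> omega) b2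
    rcases he with rfl | rfl <;> omega
  have b5 : pp n + 1 ≤ pp m := pp_lt (by have := h2 n a1; omega) hnm
  have b6 := Nat.mul_le_mul_left (2 * J) b5
  rw [mul_add] at b6
  omega

lemma hyp_key {q e x y x' y' : ℤ} (he : e = 1 ∨ e = -1) (h1 : q ∣ x * y - e) (h2 : q ∣ x' * y' - e)
    (h3 : q ∣ x' - x) : q ∣ y' - y := by
  obtain ⟨a, ha⟩ := h1
  obtain ⟨b, hb⟩ := h2
  obtain ⟨c, hc⟩ := h3
  refine ⟨e * y * (b - a - c * y') - e * a * (y' - y), ?_⟩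
  rcases he with rfl | rfl
  · linear_combination y * hb - y * ha - y * y' * hc - (y' - y) * ha
  · linear_combination -y * hb + y * ha + y * y' * hc + (y' - y) * ha

lemma hyp_b {q : ℕ} {e : ℤ} (he : e = 1 ∨ e = -1) (B : Finset ℕ)
    (hB : ∀ n ∈ B, (q:ℤ) ∣ n * pp n - e) :
    ∀ n ∈ B, ∀ m ∈ B, n ≡ m [MOD q] ↔ pp n ≡ pp m [MOD q] := by
  intro n hn m hm
  rw [Nat.modEq_iff_dvd, Nat.modEq_iff_dvd]
  refine ⟨hyp_key he (hB n hn) (hB m hm), hyp_key he ?_ ?_⟩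
  · rw [mul_comm]; exact hB n hn
  · rw [mul_comm]; exact hB m hm

lemma hyp_r {q : ℕ} {e : ℤ} (B : Finset ℕ) (h2 : ∀ n ∈ B, 2 ≤ n)
    (hB : ∀ n ∈ B, (q:ℤ) ∣ n * pp n - e) :
    ∀ J, ∀ j ∈ Icc 1 J, ∀ h ∈ Icc 1 J, ∀ n ∈ pr B pp j h, ∀ m ∈ pr B pp j h, n < m →
      2 * J * pp n + q ≤ 2 * J * pp m := by
  intro J j hj h hh n hn m hm hnm
  obtain ⟨a1, a2, a3⟩ := mem_pr.1 hn
  obtain ⟨c1, c2, c3⟩ := mem_pr.1 hm
  obtain ⟨j1, j2⟩ := mem_Icc.1 hj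
  obtain ⟨k1, k2⟩ := mem_Icc.1 hh
  obtain ⟨u, rfl⟩ := Nat.exists_eq_add_of_lt hnm
  have b1 := pp_gap (h2 n a1) (u + 1)
  rw [← add_assoc] at b1
  obtain ⟨v, hv⟩ := Nat.exists_eq_add_of_le (pp_mono (show n ≤ n + u + 1 by omega))
  have b2 := dvd_sub (dvd_sub (hB _ c2) (hB _ c1)) (dvd_sub (hB _ a2) (hB _ a1))
  rw [a3, c3, hv] at b2
  have b3 : (((n + u + 1 + j : ℕ) : ℤ) * ((pp n + v + h : ℕ) : ℤ) - e -
      (((n + u + 1 : ℕ) : ℤ) * ((pp n + v : ℕ) : ℤ) - e)) -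
      (((n + j : ℕ) : ℤ) * ((pp n + h : ℕ) : ℤ) - e - (n * pp n - e)) =
      (((u + 1) * h + v * j : ℕ) : ℤ) := by
    push_cast; ring
  rw [b3] at b2
  have b4 := Nat.le_of_dvd (by positivity) (Int.natCast_dvd_natCast.1 b2)
  have b5 : (u + 1) * h ≤ v * J := Nat.mul_le_mul (by omega) k2
  have b6 : v * j ≤ v * J := Nat.mul_le_mul_left _ j2
  rw [hv]
  nlinarith

/-- The six numbers of the problem. -/
noncomputable def six (n : ℕ) : Finset ℕ :=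
  {n - 1, n + 1, pp n - n, pp n + n, n * pp n - 1, n * pp n + 1}

lemma six_bd {n m : ℕ} (hn : 2 ≤ n) (hm : m ∈ six n) : 0 < m ∧ m ≤ n * pp n + 1 := by
  have h1 := lt_pp hn
  have h2 : pp n + n ≤ n * pp n := by nlinarith
  simp only [six, mem_insert, mem_singleton] at hm
  omega

lemma unif_ev : ∃ C : ℝ, 0 < C ∧ ∀ᶠ N : ℕ in atTop, ∀ (q : ℕ) (s : ℝ) (A : Finset ℕ), 0 < q →
    1 ≤ s → s ^ 720 = q → (∀ n ∈ A, n ∈ Icc 2 N ∧ ∃ m ∈ six n, q ∣ m) →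
    (#A : ℝ) ≤ C * (N / s ^ 12) := by
  obtain ⟨C, hC, h⟩ := generic
  refine ⟨4 + 4 * C, by positivity, ?_⟩
  have hlog : ∀ᶠ x : ℝ in atTop, ‖Real.log x‖ ≤ (1 / 5) * ‖x‖ :=
    Real.isLittleO_log_id_atTop.bound (by norm_num)
  filter_upwards [h, pp_le, tendsto_natCast_atTop_atTop.eventually hlog, eventually_ge_atTop 1]
    with N hg hp hl hN1
  intro q s A hq s1 hsq hA
  have N1 : (1:ℝ) ≤ N := by exact_mod_cast hN1
  have s0 : 0 < s := by linarith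
  have z0 : 0 ≤ (N:ℝ) / s ^ 12 := by positivity
  rw [Real.norm_of_nonneg (Real.log_nonneg N1), Real.norm_of_nonneg (by linarith)] at hl
  rcases A.eq_empty_or_nonempty with rfl | ⟨n0, hn0⟩
  · simp only [card_empty, Nat.cast_zero]; positivity
  have hqN : q ≤ N ^ 3 := by
    obtain ⟨a1, m, a2, a3⟩ := hA n0 hn0
    obtain ⟨a4, a5⟩ := mem_Icc.1 a1
    obtain ⟨a6, a7⟩ := six_bd a4 a2
    have a8 := Nat.le_of_dvd a6 a3
    have a9 : n0 * pp n0 ≤ N * pp N := Nat.mul_le_mul a5 (pp_mono a5)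
    have b1 : (pp N : ℝ) + 1 ≤ N ^ 2 := by nlinarith
    have b2 : pp N + 1 ≤ N ^ 2 := by exact_mod_cast b1
    nlinarith
  have a5 : s ^ 12 ≤ N := by
    refine (pow_le_pow_right₀ s1 (by norm_num : 12 ≤ 240)).trans ?_
    refine le_of_pow_le_pow_left₀ (n := 3) (by norm_num) (by positivity) ?_
    rw [← pow_mul, hsq]
    exact_mod_cast hqN
  have a6 : (N:ℝ) / q + 1 ≤ 2 * (N / s ^ 12) := by
    have b1 : (N:ℝ) / q ≤ N / s ^ 12 := by
      rw [← hsq]; gcongr; norm_num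
    have b2 : 1 ≤ (N:ℝ) / s ^ 12 := (one_le_div (by positivity)).2 a5
    linarith
  have lin0 : ∀ e : ℤ, (#((Icc 2 N).filter fun n : ℕ => (q:ℤ) ∣ n - e) : ℝ) ≤ 2 * (N / s ^ 12) := by
    intro e
    refine (sep _ id N q hq (fun a ha => (mem_Icc.1 (mem_filter.1 ha).1).2) ?_).trans a6
    intro a ha b hb hab
    have b1 := dvd_sub (mem_filter.1 hb).2 (mem_filter.1 ha).2
    have b2 := Int.le_of_dvd (by omega) b1
    simp only [id]
    omega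
  have lin1 : ∀ e : ℤ, e = 1 ∨ e = -1 →
      (#{n ∈ Icc 2 N | (q:ℤ) ∣ pp n - e * n} : ℝ) ≤ C * (N / s ^ 12) := fun e he =>
    hg q s _ hq s1 hsq hqN (filter_subset _ _) (lin_b he _ fun n hn => (mem_filter.1 hn).2)
      (lin_r he _ (fun n hn => (mem_Icc.1 (mem_filter.1 hn).1).1) fun n hn => (mem_filter.1 hn).2)
  have hyp1 : ∀ e : ℤ, e = 1 ∨ e = -1 →
      (#{n ∈ Icc 2 N | (q:ℤ) ∣ n * pp n - e} : ℝ) ≤ C * (N / s ^ 12) := fun e he =>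
    hg q s _ hq s1 hsq hqN (filter_subset _ _) (hyp_b he _ fun n hn => (mem_filter.1 hn).2)
      (hyp_r _ (fun n hn => (mem_Icc.1 (mem_filter.1 hn).1).1) fun n hn => (mem_filter.1 hn).2)
  have sub : A ⊆ (({n ∈ Icc 2 N | (q:ℤ) ∣ n - 1} ∪ {n ∈ Icc 2 N | (q:ℤ) ∣ n - (-1)}) ∪
      ({n ∈ Icc 2 N | (q:ℤ) ∣ pp n - 1 * n} ∪ {n ∈ Icc 2 N | (q:ℤ) ∣ pp n - (-1) * n})) ∪
      ({n ∈ Icc 2 N | (q:ℤ) ∣ n * pp n - 1} ∪ {n ∈ Icc 2 N | (q:ℤ) ∣ n * pp n - (-1)}) := by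
    intro n hn
    obtain ⟨b1, m, b2, b3⟩ := hA n hn
    have b4 := (mem_Icc.1 b1).1
    have b5 := lt_pp b4
    have b6 : 1 ≤ n * pp n := Nat.mul_pos (by omega) (by omega)
    have b7 := Int.natCast_dvd_natCast.2 b3
    simp only [six, mem_insert, mem_singleton] at b2
    simp only [mem_union, mem_filter, b1, true_and, one_mul, neg_mul, sub_neg_eq_add]
    rcases b2 with rfl | rfl | rfl | rfl | rfl | rfl
    · rw [Nat.cast_sub (by omega)] at b7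
      exact Or.inl (Or.inl (Or.inl b7))
    · exact Or.inl (Or.inl (Or.inr b7))
    · rw [Nat.cast_sub b5.le] at b7
      exact Or.inl (Or.inr (Or.inl b7))
    · exact Or.inl (Or.inr (Or.inr b7))
    · rw [Nat.cast_sub b6] at b7
      exact Or.inr (Or.inl b7)
    · exact Or.inr (Or.inr b7)
  have c1 := (card_le_card sub).trans ((card_union_le _ _).trans (add_le_add
    ((card_union_le _ _).trans (add_le_add (card_union_le _ _) (card_union_le _ _)))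
    (card_union_le _ _)))
  have c2 := (Nat.cast_le (α := ℝ)).2 c1
  simp only [Nat.cast_add] at c2
  linarith [lin0 1, lin0 (-1), lin1 1 (Or.inl rfl), lin1 (-1) (Or.inr rfl), hyp1 1 (Or.inl rfl),
    hyp1 (-1) (Or.inr rfl)]

/-- A power saving, uniform in `q` and `N`. -/
theorem unif : ∃ C : ℝ, 0 < C ∧ ∀ (N q : ℕ) (A : Finset ℕ), 0 < q →
    (∀ n ∈ A, n ∈ Icc 2 N ∧ ∃ m ∈ six n, q ∣ m) → (#A : ℝ) ≤ C * (N / (q:ℝ) ^ ((1:ℝ) / 60)) := by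
  obtain ⟨C, hC, h⟩ := unif_ev
  obtain ⟨N0, hN0⟩ := eventually_atTop.1 h
  refine ⟨C + (N0 * pp N0 + 1 : ℕ), by positivity, fun N q A hq hA => ?_⟩
  have q1 : (1:ℝ) ≤ q := by exact_mod_cast hq
  have z0 : 0 ≤ (N:ℝ) / (q:ℝ) ^ ((1:ℝ) / 60) := by positivity
  rcases le_or_gt N0 N with c | c
  · have a1 : ((q:ℝ) ^ ((1:ℝ) / 720)) ^ 720 = q := by
      rw [← Real.rpow_natCast, ← Real.rpow_mul (by linarith)]
      norm_num
    have a2 : ((q:ℝ) ^ ((1:ℝ) / 720)) ^ 12 = (q:ℝ) ^ ((1:ℝ) / 60) := by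
      rw [← Real.rpow_natCast, ← Real.rpow_mul (by linarith)]
      norm_num
    have a3 := hN0 N c q _ A hq (Real.one_le_rpow q1 (by norm_num)) a1 hA
    rw [a2] at a3
    exact a3.trans (mul_le_mul_of_nonneg_right (le_add_of_nonneg_right (by positivity)) z0)
  · rcases A.eq_empty_or_nonempty with rfl | ⟨n0, hn0⟩
    · simp only [card_empty, Nat.cast_zero]; positivity
    obtain ⟨a1, m, a2, a3⟩ := hA n0 hn0
    obtain ⟨a4, a5⟩ := mem_Icc.1 a1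
    obtain ⟨a6, a7⟩ := six_bd a4 a2
    have a8 := Nat.le_of_dvd a6 a3
    have a9 : n0 * pp n0 ≤ N0 * pp N0 := Nat.mul_le_mul (by omega) (pp_mono (by omega))
    have b1 : (q:ℝ) ≤ (N0 * pp N0 + 1 : ℕ) := by exact_mod_cast (by omega : q ≤ N0 * pp N0 + 1)
    have b2 : (q:ℝ) ^ ((1:ℝ) / 60) ≤ q := by
      conv_rhs => rw [← Real.rpow_one q]
      exact Real.rpow_le_rpow_of_exponent_le q1 (by norm_num)
    have b3 : #A ≤ N := by
      have := card_le_card (show A ⊆ Icc 2 N from fun n hn => (hA n hn).1)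
      rw [Nat.card_Icc] at this
      omega
    have b4 : (#A : ℝ) ≤ N := by exact_mod_cast b3
    refine b4.trans ?_
    rw [← mul_div_assoc, le_div_iff₀ (by positivity), mul_comm]
    gcongr
    linarith

end Pool.Agent.Lib.MP_8e6c5e_nt
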