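import Pool.Agent.Lib.MP_8e6c5e_nt.Forms

/-! Union bound over the moduli `l ^ k`. -/

namespace Pool.Agent.Lib.MP_8e6c5e_nt

open Finset Pool.Agent.Lib.MP_502c58_co

lemma six_coprime {n m : ℕ} (hn : 2 ≤ n) (hm : m ∈ six n) : m.Coprime n := by
  have h1 := lt_pp hn
  have h2 : 1 ≤ n * pp n := Nat.mul_pos (by omega) (by omega)
  have h3 : (pp n).Coprime n := Nat.coprime_of_lt_prime (by omega) h1 (pp_prime n)
  simp only [six, mem_insert, mem_singleton] at hm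
  rcases hm with rfl | rfl | rfl | rfl | rfl | rfl
  · exact (Nat.coprime_self_sub_left (by omega)).2 (Nat.coprime_one_left n)
  · simp
  · exact (Nat.coprime_sub_self_left h1.le).2 h3
  · exact Nat.coprime_add_self_left.2 h3
  · exact ((Nat.coprime_self_sub_left h2).2 (Nat.coprime_one_left _)).coprime_dvd_right
      (Dvd.intro _ rfl)
  · simp

lemma tail {z k : ℕ} (hz : 1 ≤ z) (hk : 120 ≤ k) (S : Finset ℕ) (hS : ∀ l ∈ S, z < l) :
    ∑ l ∈ S, 1 / ((l ^ k : ℕ) : ℝ) ^ ((1:ℝ) / 60) ≤ 4 * ((z:ℝ) + 1) ^ (1 - (k:ℝ) / 60) := by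
  have z1 : (1:ℝ) ≤ z := by exact_mod_cast hz
  have k1 : (120:ℝ) ≤ k := by exact_mod_cast hk
  have h1 : ∀ l ∈ S, 1 / ((l ^ k : ℕ) : ℝ) ^ ((1:ℝ) / 60) ≤
      ((z:ℝ) + 1) ^ (2 - (k:ℝ) / 60) * (1 / (l:ℝ) ^ 2) := by
    intro l hl
    have a1 : (z:ℝ) + 1 ≤ l := by exact_mod_cast hS l hl
    have a2 : (0:ℝ) < l := by linarith
    have a3 : 1 / ((l ^ k : ℕ) : ℝ) ^ ((1:ℝ) / 60) = (l:ℝ) ^ (2 - (k:ℝ) / 60) * (1 / (l:ℝ) ^ 2) := by
      rw [Nat.cast_pow, ← Real.rpow_natCast, ← Real.rpow_mul a2.le, Real.rpow_sub a2,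
        Real.rpow_two, mul_one_div]
      field_simp
    rw [a3]
    exact mul_le_mul_of_nonneg_right
      (Real.rpow_le_rpow_of_nonpos (by linarith) a1 (by linarith)) (by positivity)
  refine (sum_le_sum h1).trans ?_
  rw [← mul_sum]
  have h2 := H65.sum_inv_sq_tail S (M := z) (by linarith) (fun m hm => by exact_mod_cast hS m hm)
  have h3 : ((z:ℝ) + 1) ^ (2 - (k:ℝ) / 60) = ((z:ℝ) + 1) ^ (1 - (k:ℝ) / 60) * (z + 1) := by
    rw [← Real.rpow_add_one (by linarith)]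
    congr 1
    ring
  have h4 : ((z:ℝ) + 1) * ∑ m ∈ S, (1:ℝ) / m ^ 2 ≤ 4 := by
    refine (mul_le_mul_of_nonneg_left h2 (by linarith)).trans ?_
    rw [← mul_div_assoc, div_le_iff₀ (by linarith)]
    linarith
  rw [h3, mul_assoc, mul_comm 4]
  gcongr

theorem free : ∃ C : ℝ, ∀ (z k N : ℕ) (G : Finset ℕ), 1 ≤ z → 120 ≤ k →
    (∀ n ∈ Icc 2 N, (∀ m ∈ six n, ∀ l : ℕ, l.Prime → l ∣ m → z < l ∧ ¬ l ^ k ∣ m) → n ∈ G) →
    (N:ℝ) / primorial z - C * N * ((z:ℝ) + 1) ^ (1 - (k:ℝ) / 60) - 2 ≤ #G := by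
  classical
  obtain ⟨C, hC, h⟩ := unif
  refine ⟨4 * C, fun z k N G hz hk hG => ?_⟩
  set S := Ioc z (N * pp N + 1) with hS
  set A : ℕ → Finset ℕ := fun l => (Icc 2 N).filter fun n => ∃ m ∈ six n, l ^ k ∣ m with hA
  have h1 : (Ioc 0 N).filter (fun n => primorial z ∣ n) ⊆ ({1} ∪ G) ∪ S.biUnion A := by
    intro n hn
    obtain ⟨a1, a2⟩ := mem_filter.1 hn
    obtain ⟨a3, a4⟩ := mem_Ioc.1 a1
    by_cases c1 : n = 1
    · exact mem_union_left _ (mem_union_left _ (mem_singleton.2 c1))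
    have n2 : 2 ≤ n := by omega
    have a5 : n ∈ Icc 2 N := mem_Icc.2 ⟨n2, a4⟩
    by_cases c2 : n ∈ S.biUnion A
    · exact mem_union_right _ c2
    refine mem_union_left _ (mem_union_right _ (hG n a5 fun m hm l hl hd => ?_))
    have b1 : z < l := by
      by_contra b2
      have b3 : l ∣ n := ((hl.dvd_primorial_iff).2 (by omega)).trans a2
      exact hl.one_lt.ne' (Nat.eq_one_of_dvd_coprimes (six_coprime n2 hm) hd b3)
    refine ⟨b1, fun b2 => c2 (mem_biUnion.2 ⟨l, mem_Ioc.2 ⟨b1, ?_⟩, mem_filter.2 ⟨a5, m, hm, b2⟩⟩)⟩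
    obtain ⟨b3, b4⟩ := six_bd n2 hm
    have b5 := Nat.le_of_dvd b3 hd
    have b6 : n * pp n ≤ N * pp N := Nat.mul_le_mul a4 (pp_mono a4)
    omega
  have h2 := (card_le_card h1).trans ((card_union_le _ _).trans
    (add_le_add (card_union_le _ _) card_biUnion_le))
  rw [Nat.Ioc_filter_dvd_card_eq_div, card_singleton] at h2
  have h3 : ((N / primorial z : ℕ) : ℝ) ≤ 1 + #G + ∑ l ∈ S, (#(A l) : ℝ) := by exact_mod_cast h2
  have h4 : (N:ℝ) / primorial z < ((N / primorial z : ℕ) : ℝ) + 1 := by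
    rw [← Nat.floor_div_eq_div (K := ℝ)]
    exact Nat.lt_floor_add_one _
  have h5 : ∑ l ∈ S, (#(A l) : ℝ) ≤ C * N * ∑ l ∈ S, 1 / ((l ^ k : ℕ) : ℝ) ^ ((1:ℝ) / 60) := by
    rw [mul_sum]
    refine sum_le_sum fun l hl => ?_
    have b1 : 0 < l := by have := (mem_Ioc.1 hl).1; omega
    refine (h N (l ^ k) (A l) (by positivity) fun n hn => mem_filter.1 hn).trans (le_of_eq ?_)
    ring
  have h6 := mul_le_mul_of_nonneg_left (tail hz hk S fun l hl => (mem_Ioc.1 hl).1)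
    (by positivity : 0 ≤ C * N)
  linarith

end Pool.Agent.Lib.MP_8e6c5e_nt
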