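import Pool.Agent.Lib.MP_8e6c5e_nt.Count

/-! A power saving, uniform in the modulus, for congruences linking `n` and the `n`-th prime. -/

namespace Pool.Agent.Lib.MP_8e6c5e_nt

open Finset Filter

/-- The `n`-th prime, counted from `pp 1 = 2`. -/
noncomputable def pp (n : ℕ) : ℕ := Nat.nth Nat.Prime (n - 1)

lemma pp_prime (n : ℕ) : (pp n).Prime := Nat.prime_nth_prime _

lemma pp_mono {n m : ℕ} (h : n ≤ m) : pp n ≤ pp m :=
  Nat.nth_monotone Nat.infinite_setOfPred_prime (by omega)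

lemma pp_lt {n m : ℕ} (hn : 1 ≤ n) (h : n < m) : pp n < pp m :=
  Nat.nth_strictMono Nat.infinite_setOfPred_prime (by omega)

lemma pp_gap {n : ℕ} (hn : 2 ≤ n) (j : ℕ) : pp n + 2 * j ≤ pp (n + j) := by
  have odd : ∀ m, 2 ≤ m → pp m % 2 = 1 := by
    intro m hm
    have h1 := pp_lt (n := 1) le_rfl (show 1 < m by omega)
    have h2 := (pp_prime 1).two_le
    exact ((pp_prime m).eq_two_or_odd).resolve_left (by omega)
  induction j with
  | zero => simp
  | succ j ih =>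
    have h1 := pp_lt (n := n + j) (by omega) (Nat.lt_succ_self _)
    have h2 := odd (n + j) (by omega)
    have h3 := odd (n + j + 1) (by omega)
    rw [← add_assoc]
    simp only [Nat.succ_eq_add_one] at h1
    omega

lemma lt_pp {n : ℕ} (hn : 2 ≤ n) : n < pp n := by
  have h1 := pp_gap (n := 2) le_rfl (n - 2)
  have h2 := pp_lt (n := 1) (m := 2) le_rfl (by norm_num)
  have h3 := (pp_prime 1).two_le
  rw [show 2 + (n - 2) = n by omega] at h1
  omega

lemma pp_le : ∀ᶠ Y : ℕ in atTop, (pp Y : ℝ) + 1 ≤ 5 * (Y * Real.log Y) := by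
  have h1 : ∀ᶠ x : ℝ in atTop, ‖Real.log x‖ ≤ (1 / 20) * ‖x‖ :=
    Real.isLittleO_log_id_atTop.bound (by norm_num)
  obtain ⟨x0, hx0⟩ := eventually_atTop.1 h1
  filter_upwards [eventually_ge_atTop 10,
    tendsto_natCast_atTop_atTop.eventually_ge_atTop x0] with Y hY hY0
  have hY' : (10 : ℝ) ≤ Y := by exact_mod_cast hY
  have hl : 1 ≤ Real.log Y := by
    rw [Real.le_log_iff_exp_le (by linarith)]
    linarith [Real.exp_one_lt_d9]
  set x := ⌈4 * (Y * Real.log Y)⌉₊ with hx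
  have hx1 : 4 * (Y * Real.log Y) ≤ x := Nat.le_ceil _
  have hx2 : (x : ℝ) < 4 * (Y * Real.log Y) + 1 := Nat.ceil_lt_add_one (by positivity)
  have hYx : (Y : ℝ) ≤ x := by nlinarith
  have a1 := hx0 Y hY0
  have a2 := hx0 (x + 1) (by linarith)
  rw [Real.norm_of_nonneg (by linarith), Real.norm_of_nonneg (by linarith)] at a1
  rw [Real.norm_of_nonneg (Real.log_nonneg (by linarith)), Real.norm_of_nonneg (by linarith)] at a2
  have a3 : Real.log x ≤ 2 * Real.log Y := by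
    have : (x : ℝ) ≤ Y ^ 2 := by nlinarith
    calc Real.log x ≤ Real.log ((Y : ℝ) ^ 2) := Real.log_le_log (by linarith) this
      _ = 2 * Real.log Y := by rw [Real.log_pow]; norm_num
  have a4 : 0 < Real.log x := Real.log_pos (by linarith)
  have a5 := Chebyshev.pi_ge x
  have a6 : (Y : ℝ) ≤ (x * Real.log 2 - Real.log (x + 1)) / Real.log x := by
    rw [le_div_iff₀ a4]
    have := Real.log_two_gt_d9
    nlinarith
  have a7 : Y ≤ Nat.primeCounting x := by exact_mod_cast a6.trans a5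
  have a8 : Y - 1 < Nat.count Nat.Prime (x + 1) := by
    have : Nat.primeCounting x = Nat.count Nat.Prime (x + 1) := rfl
    omega
  have a9 : (pp Y : ℝ) ≤ x := by exact_mod_cast Nat.lt_succ_iff.1 (Nat.nth_lt_of_lt_count a8)
  nlinarith

lemma large_num {N X J s L : ℝ} (hs : 1 ≤ s) (hL : L ≤ s ^ 78) (hN : s ^ 240 ≤ N)
    (hX0 : 0 ≤ X) (hX : X ≤ 5 * (N * L)) (h1 : s ^ 90 ≤ J) (h2 : J ≤ 2 * s ^ 90) :
    N / J + X / J + 2 + J ^ 2 * (2 * J * X / s ^ 720 + 1) ≤ 92 * (N / s ^ 12) := by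
  have s0 : 0 < s := by linarith
  have N0 : 0 ≤ N := le_trans (by positivity) hN
  have J0 : 0 < J := lt_of_lt_of_le (by positivity) h1
  have p1 : ∀ a b : ℕ, a ≤ b → s ^ a ≤ s ^ b := fun a b h => pow_le_pow_right₀ hs h
  have hX' : X ≤ 5 * (N * s ^ 78) := hX.trans (by gcongr)
  have e1 : N / J ≤ N / s ^ 12 := by gcongr; exact (p1 12 90 (by norm_num)).trans h1
  have e2 : X / J ≤ 5 * (N / s ^ 12) := by
    calc X / J ≤ 5 * (N * s ^ 78) / s ^ 90 := by gcongr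
      _ = 5 * (N / s ^ 12) := by field_simp
  have e3 : s ^ 180 ≤ N / s ^ 12 := by
    rw [le_div_iff₀ (by positivity), ← pow_add]
    exact (p1 _ _ (by norm_num)).trans hN
  have e4 : 1 ≤ s ^ 180 := one_le_pow₀ hs
  have e5 : J ^ 2 ≤ 4 * s ^ 180 := by
    calc J ^ 2 ≤ (2 * s ^ 90) ^ 2 := by gcongr
      _ = 4 * s ^ 180 := by ring
  have e6 : J ^ 2 * (2 * J * X / s ^ 720) ≤ 80 * (N / s ^ 12) := by
    calc J ^ 2 * (2 * J * X / s ^ 720)
        ≤ (4 * s ^ 180) * (2 * (2 * s ^ 90) * (5 * (N * s ^ 78)) / s ^ 720) := by gcongr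
      _ = 80 * (N / s ^ 372) := by field_simp; ring
      _ ≤ 80 * (N / s ^ 12) := by gcongr; norm_num
  rw [mul_add, mul_one]
  linarith

lemma small_num {N X T H s L y q C G Cg : ℝ} (hs : 1 ≤ s) (hL : s ^ 78 ≤ L) (hq : s ^ 720 = q)
    (hC : 0 < C) (hG0 : 0 ≤ G) (hG : G ≤ Cg * s) (hy : y ^ 480 = N) (hLy : L ≤ y)
    (hy1 : 12 * Real.exp 144 ≤ y) (hlog : Real.log y = L / 480)
    (hX0 : 0 ≤ X) (hX : X + 1 ≤ 5 * (N * L)) (t1 : s ^ 13 ≤ T) (t2 : T ≤ 2 * s ^ 13)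
    (h1 : s ^ 13 * L ≤ H) (h2 : H ≤ 2 * (s ^ 13 * L)) :
    N / T + X / H + 2 + T * (y + 1 + C * (X + 1) * G / Real.log y ^ 2 *
      (s ^ 39 * (H / q + 1) + Real.exp 8 * H / s ^ 39) + (H + q) * (Real.exp 144 * y ^ 240))
      ≤ (7 + 10 * C * Cg * 480 ^ 2 * (3 + 2 * Real.exp 8)) * (N / s ^ 12) := by
  have s0 : 0 < s := by linarith
  have p1 : ∀ a b : ℕ, a ≤ b → s ^ a ≤ s ^ b := fun a b h => pow_le_pow_right₀ hs h
  have L1 : 1 ≤ L := (one_le_pow₀ hs).trans hL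
  have y1 : 1 ≤ y := L1.trans hLy
  have N0 : 0 ≤ N := by rw [← hy]; positivity
  have T0 : 0 < T := lt_of_lt_of_le (by positivity) t1
  have H0 : 0 < H := lt_of_lt_of_le (by positivity) h1
  have Cg0 : 0 ≤ Cg := by
    by_contra hc
    nlinarith
  have E1 : 1 ≤ Real.exp 144 := Real.one_le_exp (by norm_num)
  have e1 : N / T ≤ N / s ^ 12 := by gcongr; exact (p1 12 13 (by norm_num)).trans t1
  have e2 : X / H ≤ 5 * (N / s ^ 12) := by
    calc X / H ≤ 5 * (N * L) / (s ^ 13 * L) := by gcongr; linarith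
      _ = 5 * (N / s ^ 13) := by field_simp
      _ ≤ 5 * (N / s ^ 12) := by gcongr; norm_num
  have uy : s ^ 13 ≤ y := ((p1 13 78 (by norm_num)).trans hL).trans hLy
  have e3 : 2 + T * (y + 1) + T * ((H + q) * (Real.exp 144 * y ^ 240)) ≤ N / s ^ 12 := by
    have q1 : ∀ a b : ℕ, a ≤ b → y ^ a ≤ y ^ b := fun a b h => pow_le_pow_right₀ y1 h
    have a1 : T ≤ 2 * y := by linarith
    have a2 : H ≤ 2 * y ^ 10 := by
      calc H ≤ 2 * (y * y) := h2.trans (by gcongr)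
        _ ≤ 2 * y ^ 10 := by rw [← pow_two]; gcongr; norm_num
    have a3 : q ≤ y ^ 10 := by
      calc q ≤ (s ^ 78) ^ 10 := by rw [← hq, ← pow_mul]; exact p1 _ _ (by norm_num)
        _ ≤ y ^ 10 := by gcongr; linarith
    have q0 : 0 ≤ q := by rw [← hq]; positivity
    have a4 : T * ((H + q) * (Real.exp 144 * y ^ 240)) ≤ 6 * (Real.exp 144 * y ^ 251) := by
      calc _ ≤ (2 * y) * ((2 * y ^ 10 + y ^ 10) * (Real.exp 144 * y ^ 240)) := by gcongr
        _ = _ := by ring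
    have a5 : y ^ 251 ≤ Real.exp 144 * y ^ 251 := le_mul_of_one_le_left (by positivity) E1
    have a6 : T * (y + 1) ≤ 4 * y ^ 251 := by
      calc T * (y + 1) ≤ (2 * y) * (y + y) := by gcongr
        _ = 4 * y ^ 2 := by ring
        _ ≤ 4 * y ^ 251 := by gcongr; norm_num
    have a7 : 1 ≤ y ^ 251 := one_le_pow₀ y1
    have a8 : 12 * (Real.exp 144 * y ^ 251) ≤ N / s ^ 12 := by
      rw [le_div_iff₀ (by positivity), ← hy]
      calc 12 * (Real.exp 144 * y ^ 251) * s ^ 12 = (12 * Real.exp 144) * y ^ 251 * s ^ 12 := by ring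
        _ ≤ y * y ^ 251 * y := by gcongr; exact (p1 12 13 (by norm_num)).trans uy
        _ = y ^ 253 := by ring
        _ ≤ y ^ 480 := q1 _ _ (by norm_num)
    linarith
  have e4 : s ^ 39 * (H / q + 1) + Real.exp 8 * H / s ^ 39 ≤ (3 + 2 * Real.exp 8) * (L / s ^ 26) := by
    have a1 : s ^ 39 * (H / q) ≤ 2 * (L / s ^ 26) := by
      calc s ^ 39 * (H / q) ≤ s ^ 39 * (2 * (s ^ 13 * L) / s ^ 78) := by
            gcongr
            rw [← hq]
            exact p1 _ _ (by norm_num)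
        _ = _ := by field_simp
    have a2 : s ^ 39 ≤ L / s ^ 26 := by
      rw [le_div_iff₀ (by positivity), ← pow_add]
      exact (p1 _ _ (by norm_num)).trans hL
    have a3 : Real.exp 8 * H / s ^ 39 ≤ 2 * Real.exp 8 * (L / s ^ 26) := by
      calc Real.exp 8 * H / s ^ 39 ≤ Real.exp 8 * (2 * (s ^ 13 * L)) / s ^ 39 := by gcongr
        _ = _ := by field_simp
    rw [mul_add, mul_one, add_mul]
    linarith
  have e5 : T * (C * (X + 1) * G / Real.log y ^ 2 *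
      (s ^ 39 * (H / q + 1) + Real.exp 8 * H / s ^ 39))
      ≤ 10 * C * Cg * 480 ^ 2 * (3 + 2 * Real.exp 8) * (N / s ^ 12) := by
    have q0 : 0 ≤ q := by rw [← hq]; positivity
    rw [hlog]
    calc _ ≤ (2 * s ^ 13) * (C * (5 * (N * L)) * (Cg * s) / (L / 480) ^ 2 *
          ((3 + 2 * Real.exp 8) * (L / s ^ 26))) := by gcongr
      _ = _ := by field_simp; ring
  rw [mul_add, mul_add, add_mul]
  linarith

lemma ev_y : ∀ᶠ N : ℕ in atTop, ∃ y : ℝ, y ^ 480 = N ∧ Real.log N ≤ y ∧ 12 * Real.exp 144 ≤ y ∧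
    Real.log y = Real.log N / 480 := by
  have h1 : Tendsto (fun N : ℕ => (N:ℝ) ^ ((1:ℝ) / 480)) atTop atTop :=
    (tendsto_rpow_atTop (by norm_num)).comp tendsto_natCast_atTop_atTop
  have h2 : ∀ᶠ x : ℝ in atTop, ‖Real.log x‖ ≤ (1 / 480) * ‖x‖ :=
    Real.isLittleO_log_id_atTop.bound (by norm_num)
  filter_upwards [h1.eventually h2, h1.eventually_ge_atTop (12 * Real.exp 144),
    eventually_ge_atTop 1] with N a1 a2 a3
  have N1 : (1:ℝ) ≤ N := by exact_mod_cast a3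
  have a4 : Real.log ((N:ℝ) ^ ((1:ℝ) / 480)) = Real.log N / 480 := by
    rw [Real.log_rpow (by linarith)]; ring
  refine ⟨_, ?_, ?_, a2, a4⟩
  · rw [← Real.rpow_natCast, ← Real.rpow_mul (by linarith)]
    norm_num
  · rw [a4, Real.norm_of_nonneg (by have := Real.log_nonneg N1; positivity),
      Real.norm_of_nonneg (by positivity)] at a1
    linarith

/-- The two ranges of the modulus put together. -/
lemma generic : ∃ C : ℝ, 0 < C ∧ ∀ᶠ N : ℕ in atTop, ∀ (q : ℕ) (s : ℝ) (B : Finset ℕ), 0 < q →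
    1 ≤ s → s ^ 720 = q → q ≤ N ^ 3 → B ⊆ Icc 2 N →
    (∀ n ∈ B, ∀ m ∈ B, n ≡ m [MOD q] ↔ pp n ≡ pp m [MOD q]) →
    (∀ J, ∀ j ∈ Icc 1 J, ∀ h ∈ Icc 1 J, ∀ n ∈ pr B pp j h, ∀ m ∈ pr B pp j h, n < m →
      2 * J * pp n + q ≤ 2 * J * pp m) → (#B : ℝ) ≤ C * (N / s ^ 12) := by
  obtain ⟨C, hC, hs⟩ := small
  obtain ⟨Cg, hCg, hg⟩ := gg_le
  refine ⟨92 + (7 + 10 * C * Cg * 480 ^ 2 * (3 + 2 * Real.exp 8)), by positivity, ?_⟩
  filter_upwards [pp_le, ev_y, eventually_ge_atTop 1] with N hp hy hN1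
  intro q s B hq s1 hsq hqN hB hb hr
  obtain ⟨y, y1, y2, y3, y4⟩ := hy
  have s0 : 0 < s := by linarith
  have N1 : (1:ℝ) ≤ N := by exact_mod_cast hN1
  have L0 := Real.log_nonneg N1
  have bN : ∀ n ∈ B, n ≤ N := fun n hn => (mem_Icc.1 (hB hn)).2
  have bX : ∀ n ∈ B, pp n ≤ pp N := fun n hn => pp_mono (bN n hn)
  have bm : ∀ n ∈ B, ∀ m ∈ B, n < m → pp n < pp m := fun n hn m _ h =>
    pp_lt (by have := (mem_Icc.1 (hB hn)).1; omega) h
  have z0 : 0 ≤ (N:ℝ) / s ^ 12 := by positivity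
  have ceil2 : ∀ t : ℝ, 1 ≤ t → 0 < ⌈t⌉₊ ∧ t ≤ ⌈t⌉₊ ∧ (⌈t⌉₊ : ℝ) ≤ 2 * t := fun t ht =>
    ⟨Nat.ceil_pos.2 (by linarith), Nat.le_ceil t, by
      have := Nat.ceil_lt_add_one (by linarith : 0 ≤ t); linarith⟩
  rcases le_total (Real.log N) (s ^ 78) with c | c
  · obtain ⟨a1, a2, a3⟩ := ceil2 (s ^ 90) (one_le_pow₀ s1)
    have a4 := large B pp N (pp N) _ q a1 hq bN bX bm (hr _)
    have a5 : s ^ 240 ≤ N := by
      refine le_of_pow_le_pow_left₀ (n := 3) (by norm_num) (by positivity) ?_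
      rw [← pow_mul, hsq]
      exact_mod_cast hqN
    have a6 := large_num (X := pp N) s1 c a5 (by positivity) (by linarith) a2 a3
    rw [hsq] at a6
    refine (a4.trans a6).trans ?_
    gcongr
    exact le_add_of_nonneg_right (by positivity)
  · have L1 : 1 ≤ Real.log N := (one_le_pow₀ s1).trans c
    obtain ⟨a1, a2, a3⟩ := ceil2 (s ^ 13) (one_le_pow₀ s1)
    obtain ⟨b1, b2, b3⟩ := ceil2 (s ^ 13 * Real.log N)
      (one_le_mul_of_one_le_of_one_le (one_le_pow₀ s1) L1)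
    have E1 : 1 ≤ Real.exp 144 := Real.one_le_exp (by norm_num)
    have a4 := hs B pp N (pp N) _ _ q y (s ^ 39) a1 b1 hq (by linarith) (by positivity) bN bX bm
      (fun n _ => pp_prime n) hb
    have a5 := small_num (X := pp N) s1 c hsq hC (by positivity) (hg q s hq s1 hsq) y1 y2 y3 y4
      (by positivity) hp a2 a3 b2 b3
    exact (a4.trans a5).trans (mul_le_mul_of_nonneg_right (le_add_of_nonneg_left (by norm_num)) z0)

end Pool.Agent.Lib.MP_8e6c5e_nt
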