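import Pool.Agent.Lib.MP_502c58_co.H65Primes

/-! Prime pairs in a progression: an upper bound uniform in the modulus and the shift. -/

namespace Pool.Agent.Lib.MP_8e6c5e_nt

open Finset Pool.Agent.Lib.MP_502c58_co

/-- The local factor `exp (∑ 1/l)` over the primes `l` dividing `m`. -/
noncomputable def gg (m : ℕ) : ℝ := Real.exp (∑ l ∈ m.primeFactors, (1:ℝ) / l)

lemma gg_pos (m : ℕ) : 0 < gg m := Real.exp_pos _

lemma rho_le {l h : ℕ} (hl : 0 < l) (R : Finset ℕ)
    (hR : ∀ r, r ∈ R ↔ r < l ∧ (l ∣ r ∨ l ∣ r + h)) : #R ≤ 2 := by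
  have : R ⊆ {0, l - h % l} := by
    intro r hr
    obtain ⟨h1, h2⟩ := (hR r).1 hr
    simp only [mem_insert, mem_singleton]
    rcases h2 with h2 | h2
    · exact Or.inl (Nat.eq_zero_of_dvd_of_lt h2 h1)
    · have h3 : h % l < l := Nat.mod_lt _ hl
      have h4 : l ∣ r + h % l := by
        have : r + h = r + h % l + l * (h / l) := by have := Nat.mod_add_div h l; omega
        rw [this] at h2
        exact (Nat.dvd_add_left (Dvd.intro _ rfl)).1 h2
      obtain ⟨c, hc⟩ := h4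
      have h5 : c < 2 := by
        by_contra h6
        have : l * 2 ≤ l * c := Nat.mul_le_mul_left _ (by omega)
        omega
      interval_cases c <;> omega
  exact (card_le_card this).trans card_le_two

lemma rho_ge {l h : ℕ} (hl : 0 < l) (R : Finset ℕ)
    (hR : ∀ r, r ∈ R ↔ r < l ∧ (l ∣ r ∨ l ∣ r + h)) :
    (2:ℝ) - (if l ∣ h then 1 else 0) ≤ #R := by
  have h0 : 0 ∈ R := (hR 0).2 ⟨hl, Or.inl (dvd_zero _)⟩
  split_ifs with hd
  · have : 1 ≤ #R := card_pos.2 ⟨0, h0⟩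
    have : (1:ℝ) ≤ #R := by exact_mod_cast this
    linarith
  · have h3 : h % l < l := Nat.mod_lt _ hl
    have h4 : h % l ≠ 0 := fun h5 => hd (Nat.dvd_of_mod_eq_zero h5)
    have h1 : l - h % l ∈ R := by
      refine (hR _).2 ⟨by omega, Or.inr ⟨1 + h / l, ?_⟩⟩
      have := Nat.mod_add_div h l
      rw [mul_add]
      omega
    have : 1 < #R := one_lt_card.2 ⟨0, h0, _, h1, by omega⟩
    have : (2:ℝ) ≤ #R := by exact_mod_cast this
    linarith

lemma mertens_low : ∃ C : ℝ, ∀ y : ℝ, 4 ≤ y →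
    Real.log (Real.log y) - C ≤ ∑ q ∈ Nat.primesLE ⌊y⌋₊, (1:ℝ) / q := by
  obtain ⟨C, hC⟩ := H65.sum_inv_prime_ap 1 0 one_pos (by simp)
  refine ⟨C, fun y hy => ?_⟩
  have := hC y hy
  simpa [Nat.modEq_one] using this

/-- Upper bound for prime pairs `x, x + h` with `x` in a class modulo `q`. -/
lemma pair_sieve : ∃ C : ℝ, 0 < C ∧ ∀ (X q a h : ℕ) (y : ℝ), 0 < q → 0 < h → 4 ≤ y →
    ∀ S : Finset ℕ, (∀ x ∈ S, x < X ∧ x ≡ a [MOD q] ∧ y < x ∧ x.Prime ∧ (x + h).Prime) →
    (#S : ℝ) ≤ C * (X / q) * gg q ^ 2 * gg h / Real.log y ^ 2 + Real.exp 144 * y ^ 240 := by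
  classical
  obtain ⟨C, hC⟩ := mertens_low
  refine ⟨2 * Real.exp (2 * C + 2), by positivity, ?_⟩
  intro X q a h y hq hh hy S hS
  set P := (Nat.primesLE ⌊y⌋₊).filter (fun l => 5 ≤ l ∧ ¬ l ∣ q) with hP
  have hPm : ∀ l ∈ P, l.Prime ∧ 5 ≤ l ∧ ¬ l ∣ q ∧ (l:ℝ) ≤ y := by
    intro l hl
    obtain ⟨h1, h2, h3⟩ := mem_filter.1 hl
    obtain ⟨h4, h5⟩ := Nat.mem_primesLE.1 h1
    exact ⟨h5, h2, h3, (Nat.le_floor_iff (by linarith)).1 h4⟩
  have hy0 : 0 < y := by linarith
  have hly : 0 < Real.log y := Real.log_pos (by linarith)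
  have hz1 : 1 ≤ Real.exp 24 * y ^ 40 :=
    one_le_mul_of_one_le_of_one_le (Real.one_le_exp (by norm_num)) (one_le_pow₀ (by linarith))
  have hsv := H65.sieve1 X q a hq P (fun l hl => ⟨(hPm l hl).1, by have := (hPm l hl).2.1; omega,
    (hPm l hl).2.2.1⟩) (fun l n => l ∣ n ∨ l ∣ n + h)
    (fun l _ x => by
      rw [Nat.dvd_mod_iff dvd_rfl, Nat.dvd_iff_mod_eq_zero (m := l) (n := x + h),
        Nat.dvd_iff_mod_eq_zero (m := l) (n := x % l + h), Nat.mod_add_mod])
    (fun l hl => by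
      have h5 := (hPm l hl).2.1
      refine le_trans (Nat.mul_le_mul_left 2 (rho_le (l := l) (h := h) (by omega) _ ?_)) (by omega)
      intro r
      simp)
    (Real.exp 24 * y ^ 40) hz1
    (by
      have h1 := H65.sum_log_div_le P (by linarith : (1:ℝ) ≤ y)
        (fun l hl => ⟨(hPm l hl).1, (hPm l hl).2.2.2⟩)
      rw [Real.log_mul (by positivity) (by positivity), Real.log_exp, Real.log_pow]
      refine le_trans (mul_le_mul_of_nonneg_left (sum_le_sum (g := fun l : ℕ =>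
        2 * (Real.log l / l)) ?_) (by norm_num)) ?_
      · intro l hl
        have h5 := (hPm l hl).2.1
        have h6 : (0:ℝ) < l := by positivity
        have h7 := Real.log_natCast_nonneg l
        rw [← mul_div_assoc, ← mul_div_assoc, mul_comm (2:ℝ)]
        gcongr
        exact_mod_cast rho_le (l := l) (h := h) (by omega) _ (by intro r; simp)
      · rw [← mul_sum]
        push_cast
        linarith)
  refine le_trans (le_trans ?_ hsv) ?_
  · refine Nat.cast_le.2 (card_le_card ?_)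
    intro x hx
    obtain ⟨h1, h2, h3, h4, h5⟩ := hS x hx
    simp only [mem_filter, mem_range]
    refine ⟨h1, h2, fun l hl hd => ?_⟩
    obtain ⟨p1, -, -, p4⟩ := hPm l hl
    have hlx : l < x := by exact_mod_cast p4.trans_lt h3
    rcases hd with hd | hd
    · have := (Nat.prime_dvd_prime_iff_eq p1 h4).1 hd
      omega
    · have := (Nat.prime_dvd_prime_iff_eq p1 h5).1 hd
      omega
  · have e1 : (Real.exp 24 * y ^ 40) ^ 6 = Real.exp 144 * y ^ 240 := by
      rw [mul_pow, ← pow_mul, ← Real.exp_nat_mul]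
      norm_num
    rw [e1]
    refine add_le_add_left ?_ _
    have key : ∀ t : ℝ, 2 * (Real.log (Real.log y) - C) - 2 - 2 * (∑ l ∈ q.primeFactors, (1:ℝ) / l)
        - (∑ l ∈ h.primeFactors, (1:ℝ) / l) ≤ t → 2 * ((X:ℝ) / q) * Real.exp (-t) ≤
        2 * Real.exp (2 * C + 2) * (X / q) * gg q ^ 2 * gg h / Real.log y ^ 2 := by
      intro t ht
      have e2 : Real.log y ^ 2 = Real.exp (2 * Real.log (Real.log y)) := by
        rw [show (2:ℝ) = (2:ℕ) by norm_num, Real.exp_nat_mul, Real.exp_log hly]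
      have e3 : Real.exp (-t) ≤ Real.exp (2 * C + 2) * gg q ^ 2 * gg h / Real.log y ^ 2 := by
        rw [e2, gg, gg, ← Real.exp_nat_mul, ← Real.exp_add, ← Real.exp_add, ← Real.exp_sub]
        refine Real.exp_le_exp.2 ?_
        push_cast
        linarith
      calc 2 * ((X:ℝ) / q) * Real.exp (-t)
          ≤ 2 * ((X:ℝ) / q) * (Real.exp (2 * C + 2) * gg q ^ 2 * gg h / Real.log y ^ 2) := by
            gcongr
        _ = _ := by ring
    apply key
    have m1 := hC y hy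
    have m2 : ∑ l ∈ Nat.primesLE ⌊y⌋₊, (1:ℝ) / l ≤
        ∑ l ∈ P, (1:ℝ) / l + 1 + ∑ l ∈ q.primeFactors, (1:ℝ) / l := by
      have s1 : Nat.primesLE ⌊y⌋₊ ⊆ (P ∪ {2, 3}) ∪ q.primeFactors := by
        intro l hl
        have hp := (Nat.mem_primesLE.1 hl).2
        by_cases c1 : l ∣ q
        · exact mem_union_right _ (Nat.mem_primeFactors.2 ⟨hp, c1, hq.ne'⟩)
        by_cases c2 : 5 ≤ l
        · exact mem_union_left _ (mem_union_left _ (mem_filter.2 ⟨hl, c2, c1⟩))
        · refine mem_union_left _ (mem_union_right _ ?_)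
          have := hp.two_le
          have c3 : l ≠ 4 := by rintro rfl; norm_num at hp
          simp only [mem_insert, mem_singleton]
          omega
      have un : ∀ A B : Finset ℕ, ∑ l ∈ A ∪ B, (1:ℝ) / l ≤ ∑ l ∈ A, (1:ℝ) / l + ∑ l ∈ B, (1:ℝ) / l := by
        intro A B
        rw [← sum_union_inter]
        have : 0 ≤ ∑ l ∈ A ∩ B, (1:ℝ) / l := sum_nonneg fun _ _ => by positivity
        linarith
      have s2 := sum_le_sum_of_subset_of_nonneg (f := fun l : ℕ => (1:ℝ) / l) s1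
        (fun _ _ _ => by positivity)
      have s3 := un (P ∪ {2, 3}) q.primeFactors
      have s4 := un P {2, 3}
      have s5 : ∑ l ∈ ({2, 3} : Finset ℕ), (1:ℝ) / l ≤ 1 := by
        rw [sum_pair (by norm_num)]
        norm_num
      linarith
    have m3 : ∑ l ∈ P, (if l ∣ h then (1:ℝ) else 0) / l ≤ ∑ l ∈ h.primeFactors, (1:ℝ) / l := by
      have : ∑ l ∈ P, (if l ∣ h then (1:ℝ) else 0) / l = ∑ l ∈ P with l ∣ h, (1:ℝ) / l := by
        rw [sum_filter (fun l => l ∣ h)]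
        refine sum_congr rfl fun l _ => ?_
        split_ifs <;> simp
      rw [this]
      refine sum_le_sum_of_subset_of_nonneg ?_ (fun _ _ _ => by positivity)
      intro l hl
      obtain ⟨h1, h2⟩ := mem_filter.1 hl
      exact Nat.mem_primeFactors.2 ⟨(hPm l h1).1, h2, hh.ne'⟩
    refine le_trans ?_ (sum_le_sum (f := fun l : ℕ =>
      2 * ((1:ℝ) / l) - (if l ∣ h then (1:ℝ) else 0) / l) ?_)
    · rw [sum_sub_distrib, ← mul_sum]
      linarith
    · intro l hl
      have h5 := (hPm l hl).2.1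
      have h6 : (0:ℝ) < l := by positivity
      rw [mul_one_div, ← sub_div]
      gcongr
      exact rho_ge (l := l) (h := h) (by omega) _ (by intro r; simp)

/-- Mean square of the local factor. -/
lemma gg_mean (H : ℕ) : ∑ h ∈ Icc 1 H, gg h ^ 2 ≤ Real.exp 8 * H := by
  classical
  set P := Nat.primesLE H with hP
  have h1 : ∀ h ∈ Icc 1 H, gg h ^ 2 ≤
      ∑ S ∈ P.powerset, if (∏ l ∈ S, l) ∣ h then ∏ l ∈ S, (4:ℝ) / l else 0 := by
    intro h hh
    obtain ⟨a1, a2⟩ := mem_Icc.1 hh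
    have b1 : gg h ^ 2 ≤ ∏ l ∈ h.primeFactors, (1 + (4:ℝ) / l) := by
      rw [gg, ← Real.exp_nat_mul, mul_sum, Real.exp_sum]
      refine prod_le_prod (fun _ _ => (Real.exp_pos _).le) fun l hl => ?_
      have c1 : (2:ℝ) ≤ l := by exact_mod_cast (Nat.prime_of_mem_primeFactors hl).two_le
      have c2 : ((2:ℕ):ℝ) * (1 / l) = 2 / l := by push_cast; ring
      have c3 : (2:ℝ) / l ≤ 1 := (div_le_one (by linarith)).2 c1
      have c4 : (0:ℝ) ≤ 2 / l := by positivity
      have c5 := Real.abs_exp_sub_one_le (x := 2 / l) (by rw [abs_of_nonneg c4]; exact c3)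
      rw [abs_of_nonneg c4] at c5
      have c6 := le_abs_self (Real.exp (2 / l) - 1)
      have c7 : (4:ℝ) / l = 2 * (2 / l) := by ring
      rw [c2]
      linarith
    rw [prod_one_add] at b1
    rw [← sum_filter]
    refine b1.trans (sum_le_sum_of_subset_of_nonneg ?_ (fun _ _ _ => by positivity))
    intro S hS
    have hS' := mem_powerset.1 hS
    refine mem_filter.2 ⟨mem_powerset.2 fun l hl => ?_, ?_⟩
    · have := hS' hl
      exact Nat.mem_primesLE.2 ⟨(Nat.le_of_mem_primeFactors this).trans a2,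
        Nat.prime_of_mem_primeFactors this⟩
    · exact (prod_dvd_prod_of_subset _ _ _ hS').trans (Nat.prod_primeFactors_dvd h)
  refine (sum_le_sum h1).trans ?_
  rw [sum_comm]
  have h2 : ∀ S ∈ P.powerset, ∑ h ∈ Icc 1 H, (if (∏ l ∈ S, l) ∣ h then ∏ l ∈ S, (4:ℝ) / l else 0)
      ≤ H * ∏ l ∈ S, (4:ℝ) / l ^ 2 := by
    intro S hS
    have hS' := mem_powerset.1 hS
    rw [← sum_filter, sum_const, nsmul_eq_mul]
    have c1 : #{h ∈ Icc 1 H | (∏ l ∈ S, l) ∣ h} = H / ∏ l ∈ S, l := by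
      rw [← Nat.Ioc_filter_dvd_card_eq_div]
      rfl
    have c2 : ((H / ∏ l ∈ S, l : ℕ) : ℝ) ≤ H / ∏ l ∈ S, (l:ℝ) := by
      rw [← Nat.cast_prod]
      exact Nat.cast_div_le
    have c3 : ∏ l ∈ S, (4:ℝ) / l ^ 2 = (∏ l ∈ S, (l:ℝ))⁻¹ * ∏ l ∈ S, (4:ℝ) / l := by
      rw [← prod_inv_distrib, ← prod_mul_distrib]
      refine prod_congr rfl fun l _ => by ring
    rw [c1, c3, ← mul_assoc, ← div_eq_mul_inv]
    gcongr
  refine (sum_le_sum h2).trans ?_
  rw [← mul_sum, ← prod_one_add, mul_comm]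
  gcongr
  have h3 : ∏ l ∈ P, (1 + (4:ℝ) / l ^ 2) ≤ Real.exp (∑ l ∈ P, (4:ℝ) / l ^ 2) := by
    rw [Real.exp_sum]
    refine prod_le_prod (fun _ _ => by positivity) fun l _ => ?_
    linarith [Real.add_one_le_exp ((4:ℝ) / l ^ 2)]
  refine h3.trans (Real.exp_le_exp.2 ?_)
  have h4 := H65.sum_inv_sq_tail P (M := 1) one_pos (fun m hm => by
    exact_mod_cast (Nat.mem_primesLE.1 hm).2.one_lt)
  have h5 : ∑ l ∈ P, (4:ℝ) / l ^ 2 = 4 * ∑ l ∈ P, (1:ℝ) / l ^ 2 := by
    rw [mul_sum]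
    exact sum_congr rfl fun l _ => by ring
  rw [h5]
  linarith

lemma gg_sum (H : ℕ) (S : Finset ℕ) (hS : S ⊆ Icc 1 H) {lam : ℝ} (hl : 0 < lam) :
    ∑ h ∈ S, gg h ≤ lam * #S + Real.exp 8 * H / lam := by
  have h1 : ∀ h ∈ S, gg h ≤ lam + gg h ^ 2 / lam := by
    intro h _
    have := gg_pos h
    rw [← sub_le_iff_le_add', le_div_iff₀ hl]
    nlinarith [sq_nonneg (gg h - lam)]
  refine (sum_le_sum h1).trans ?_
  rw [sum_add_distrib, sum_const, nsmul_eq_mul, mul_comm, ← sum_div]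
  gcongr
  exact (sum_le_sum_of_subset_of_nonneg hS (fun _ _ _ => by positivity)).trans (gg_mean H)

/-- The local factor of the modulus is below any small power of it. -/
lemma gg_le : ∃ C : ℝ, 0 < C ∧ ∀ (q : ℕ) (s : ℝ), 0 < q → 1 ≤ s → s ^ 720 = q → gg q ^ 2 ≤ C * s := by
  refine ⟨Real.exp 24 * (2 * 7200) ^ 10, by positivity, fun q s hq hs hsq => ?_⟩
  have hq1 : (1:ℝ) ≤ q := by exact_mod_cast hq
  have h1 := H65.sum_inv_prime_le q.primeFactors (y := 2 * q) (by linarith) (fun l hl =>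
    ⟨Nat.prime_of_mem_primeFactors hl, by
      have : (l:ℝ) ≤ q := by exact_mod_cast Nat.le_of_mem_primeFactors hl
      linarith⟩)
  have hl : 0 < Real.log (2 * q) := Real.log_pos (by linarith)
  have h2 : gg q ^ 2 ≤ Real.exp 24 * Real.log (2 * q) ^ 10 := by
    have : Real.log (2 * q) ^ 10 = Real.exp (10 * Real.log (Real.log (2 * q))) := by
      rw [show (10:ℝ) = (10:ℕ) by norm_num, Real.exp_nat_mul, Real.exp_log hl]
    rw [this, gg, ← Real.exp_nat_mul, ← Real.exp_add]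
    refine Real.exp_le_exp.2 ?_
    push_cast
    linarith
  refine h2.trans ?_
  rw [mul_assoc]
  gcongr
  set t := s ^ ((1:ℝ) / 10) with ht
  have t1 : 1 ≤ t := Real.one_le_rpow hs (by norm_num)
  have t2 : t ^ 10 = s := by
    rw [ht, ← Real.rpow_natCast, ← Real.rpow_mul (by linarith)]
    norm_num
  have t3 : Real.log (2 * q) ≤ 2 * 7200 * t := by
    rw [← hsq, ← t2, ← pow_mul, Real.log_mul (by norm_num) (by positivity), Real.log_pow]
    have := Real.log_le_sub_one_of_pos (by linarith : 0 < t)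
    have := Real.log_two_lt_d9
    push_cast
    linarith
  calc Real.log (2 * q) ^ 10 ≤ (2 * 7200 * t) ^ 10 := by gcongr
    _ = (2 * 7200) ^ 10 * s := by rw [mul_pow, t2]

end Pool.Agent.Lib.MP_8e6c5e_nt
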